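import Pool.Agent.Work.MP_afe918_an.Bd.B01

/-!
# MP_afe918_an, item n1b (helper85): simple vortex, second relation
-/

set_option autoImplicit false

open Complex Set Filter Topology MeasureTheory Metric
open scoped Real ContDiff ComplexConjugate

namespace Pool.Agent.Vx

theorem n1b_add {s : ℝ} {E : ℂ → ℝ} {f g : ℂ → ℂ}
    (hf : IntegrableOn (fun z => f z * (E z : ℂ)) (ball (0 : ℂ) s))
    (hg : IntegrableOn (fun z => g z * (E z : ℂ)) (ball (0 : ℂ) s)) :
    mo s E (fun z => f z + g z) = mo s E f + mo s E g := by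
  unfold mo
  rw [← integral_add hf hg]
  congr 1
  funext z
  ring

theorem n1b_cmul {s : ℝ} {E : ℂ → ℝ} (c : ℂ) (f : ℂ → ℂ) :
    mo s E (fun z => c * f z) = c * mo s E f := by
  unfold mo
  rw [← integral_const_mul]
  congr 1
  funext z
  ring

theorem n1b_inv (r : ℝ) : IntegrableOn (fun z : ℂ => 1 / z) (ball (0 : ℂ) r) := by
  have h1 : IntegrableOn (fun z : ℂ => (fun y : ℝ => 1 / y) ‖z‖) (ball (0 : ℂ) r) := by
    rw [integrableOn_fun_norm_addHaar volume (f := fun y : ℝ => 1 / y)]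
    have : IntegrableOn (fun _ : ℝ => (1 : ℝ)) (Ioo 0 r) := by simp
    refine this.congr_fun (fun y hy => ?_) measurableSet_Ioo
    rw [Complex.finrank_real_complex]
    simp [hy.1.ne']
  have hm : AEStronglyMeasurable (fun z : ℂ => 1 / z) (volume.restrict (ball (0 : ℂ) r)) :=
    (measurable_const.div measurable_id).aestronglyMeasurable
  rw [IntegrableOn, ← integrable_norm_iff hm]
  refine h1.congr (Eventually.of_forall fun z => ?_)
  simp

theorem n1b_int {r s : ℝ} {E : ℂ → ℝ} (hE : Continuous E) (hs : s < r) {f : ℂ → ℂ}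
    (hf : ContinuousOn f (ball 0 r)) :
    IntegrableOn (fun z => f z * (1 / z) * (E z : ℂ)) (ball (0 : ℂ) s) := by
  have h1 : IntegrableOn (fun z : ℂ => 1 / z) (closedBall (0 : ℂ) s) :=
    (n1b_inv r).mono_set (closedBall_subset_ball hs)
  have hc : ContinuousOn (fun z => f z * (E z : ℂ)) (closedBall (0 : ℂ) s) :=
    (hf.mono (closedBall_subset_ball hs)).mul (continuous_ofReal.comp hE).continuousOn
  have := (h1.mul_continuousOn hc (isCompact_closedBall _ _)).mono_set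
    (ball_subset_closedBall (x := (0 : ℂ)) (ε := s))
  refine this.congr_fun (fun z _ => ?_) measurableSet_ball
  ring

theorem n1b_ne (s : ℝ) : ∀ᵐ z : ℂ ∂(volume.restrict (ball (0 : ℂ) s)), z ≠ 0 := by
  have : ∀ᵐ z : ℂ ∂(volume : Measure ℂ), z ≠ 0 := by
    rw [ae_iff]; simp
  exact ae_restrict_of_ae this

theorem n1b_step (hR : S_RIp) (hR2 : S_RI2) (r s H Λ M0 : ℝ) (hs : 0 < s) (hsr : 2 * s < r)
    (hH : 0 ≤ H) (hΛ : 0 ≤ Λ) : ∃ C : ℝ, 0 ≤ C ∧ ∀ (lam η : ℝ) (h : ℂ → ℂ) (E : ℂ → ℝ),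
    Loc r 1 lam h E → lam ≤ Λ → (∀ z ∈ ball (0 : ℂ) r, ‖deriv h z‖ ≤ H) → ms r E ≤ M0 →
    (∀ z ∈ ball (0 : ℂ) r, s ≤ ‖z‖ → E z ≤ η) →
    ‖mo s E (fun z => 1 / z) + deriv h 0 * (ms s E : ℂ)‖ ≤
      C * (η + ∫ z in ball (0 : ℂ) s, ‖z‖ * E z) ∧
    ‖deriv h 0 * mo s E (fun z => 1 / z) + deriv (deriv h) 0 * (ms s E : ℂ) -
      lam / 4 * mo s E (fun z => conj z / z) + 1 / (8 * π) * mo s E (fun z => 1 / z) ^ 2‖ ≤
      C * (η * (1 + ‖mo s E (fun z => 1 / z)‖) + ∫ z in ball (0 : ℂ) s, ‖z‖ * E z) := by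
  obtain ⟨K, hK, hRI⟩ := hR
  obtain ⟨C3, hC3, hRI2⟩ := hR2 r s H Λ M0 hs hsr
  have hr : 0 < r := by linarith
  obtain ⟨C0, hC0, hCau⟩ := n1x_cauchy r H hr hH
  set H' : ℝ := Λ * r ^ 2 + H * r with hH'
  set C1 : ℝ := K * (1 + ((1 : ℕ) : ℝ) + H' + |M0| * (r / s)) * (1 / s) * s ^ 2 with hC1
  set C2 : ℝ := C0 + Λ / 4 with hC2
  have hH'0 : 0 ≤ H' := by positivity
  have hC1' : 0 ≤ C1 := by positivity
  have hC2' : 0 ≤ C2 := by positivity
  refine ⟨C1 + C2 + C3, by positivity, fun lam η h E hL hlam hh hM hη => ?_⟩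
  have hE := hL.cont
  have hE0 := hL.nonneg
  have hlam0 := hL.lam0
  obtain ⟨hc2, hc1, hcq⟩ := hCau h hL.an hh
  set h1 : ℂ := deriv h 0 with hh1
  set h2 : ℂ := deriv (deriv h) 0 with hh2
  set c : ℕ → ℂ := fun i => if i = 0 then 1 else 0 with hc
  have hηge : 0 ≤ η := by
    have hz : ((s : ℝ) : ℂ) ∈ ball (0 : ℂ) r := by
      rw [mem_ball_zero_iff, Complex.norm_real, Real.norm_of_nonneg hs.le]; linarith
    have := hη (s : ℂ) hz (by rw [Complex.norm_real, Real.norm_of_nonneg hs.le])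
    exact (hE0 _).trans this
  have hT1 : 0 ≤ ∫ z in ball (0 : ℂ) s, ‖z‖ * E z :=
    integral_nonneg fun z => mul_nonneg (by positivity) (hE0 z)
  have key := hRI r s lam (1 / s) η H' |M0| (r / s) 1 h E 0 c hs hsr.le
    (by rw [div_mul_cancel₀ _ hs.ne']) hL hH'0
    (by
      have : lam * r ^ 2 ≤ Λ * r ^ 2 := by gcongr
      have : 0 ≤ H * r := by positivity
      rw [hH']; linarith)
    (by
      intro z hz
      have h1' : ‖deriv h z‖ * r ≤ H * r := by gcongr; exact hh z hz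
      have : 0 ≤ Λ * r ^ 2 := by positivity
      rw [hH']; linarith)
    (hM.trans (le_abs_self _)) hη (by simpa using hs.le)
    (by
      intro i hi
      by_cases i0 : i = 0
      · subst i0
        simp [hc, hs.ne']
      · simp only [hc, i0, if_false, norm_zero, zero_mul]
        positivity)
  have hhc : ContinuousOn (deriv h) (ball 0 r) :=
    (hL.an.deriv isOpen_ball).continuousOn
  have hsr' : s < r := by linarith
  have hI : ∀ f : ℂ → ℂ, ContinuousOn f (ball 0 r) →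
      IntegrableOn (fun z => f z * (E z : ℂ)) (ball (0 : ℂ) s) := fun f hf =>
    n1x_int hE hsr' hf
  have hI1 : IntegrableOn (fun z => 1 / z * (E z : ℂ)) (ball (0 : ℂ) s) := by
    have := n1b_int hE hsr' (f := fun _ => 1) continuousOn_const
    simpa using this
  -- first error
  set e1 : ℂ → ℂ := fun z => (deriv h z - h1) - lam / 4 * conj z with he1
  have he1c : ContinuousOn e1 (ball 0 r) :=
    (hhc.sub continuousOn_const).sub (by fun_prop)
  have he1b : ‖mo s E e1‖ ≤ C2 * ∫ z in ball (0 : ℂ) s, ‖z‖ * E z := by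
    have hb := n1x_bound (s := s) (C := C2) hE hE0 (f := e1) (k := 1) ?_
    · simpa using hb
    · intro z hz
      have hz' : z ∈ ball (0 : ℂ) r := ball_subset_ball (by linarith) hz
      have b2 : ‖(lam : ℂ) / 4 * conj z‖ ≤ Λ / 4 * ‖z‖ := by
        rw [norm_mul, norm_div, Complex.norm_real, Real.norm_of_nonneg hlam0, Complex.norm_conj]
        have : ‖(4 : ℂ)‖ = 4 := by norm_num
        rw [this]
        gcongr
      calc ‖e1 z‖ ≤ ‖deriv h z - h1‖ + ‖(lam : ℂ) / 4 * conj z‖ := norm_sub_le _ _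
        _ ≤ C2 * ‖z‖ ^ 1 := by
          have := hc1 z hz'
          rw [hC2, pow_one]; linarith
  have hF : mo s E (fun z => (∑ i ∈ Finset.range 6, c i * i * (z - 0) ^ (i - 1)) +
      (∑ i ∈ Finset.range 6, c i * (z - 0) ^ i) *
        (((1 : ℕ) : ℂ) / z + deriv h z - lam / 4 * conj z)) =
      mo s E (fun z => 1 / z) + h1 * (ms s E : ℂ) + mo s E e1 := by
    rw [← n1x_mo_const]
    have g1 : IntegrableOn (fun z => (1 / z + h1) * (E z : ℂ)) (ball (0 : ℂ) s) := by
      refine (hI1.add (hI (fun _ => h1) continuousOn_const)).congr_fun (fun z _ => ?_)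
        measurableSet_ball
      simp only [Pi.add_apply]
      ring
    rw [← n1b_add hI1 (hI _ continuousOn_const), ← n1b_add g1 (hI _ he1c)]
    unfold mo
    congr 1
    funext z
    simp only [Finset.sum_range_succ, Finset.sum_range_zero, hc, he1]
    norm_num
    left
    ring
  have hker : (∑ i ∈ Finset.range 6, c i * ∑ k ∈ Finset.range i,
      mo s E (fun z => (z - 0) ^ k) * mo s E (fun z => (z - 0) ^ (i - 1 - k))) = 0 := by
    apply Finset.sum_eq_zero
    intro i _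
    by_cases i0 : i = 0
    · subst i0; simp
    · simp [hc, i0]
  rw [hF, hker, mul_zero, sub_zero] at key
  have hkey : ‖mo s E (fun z => 1 / z) + h1 * (ms s E : ℂ) + mo s E e1‖ ≤ C1 * η := by
    refine key.trans (le_of_eq ?_)
    rw [hC1]; ring
  have hA : ‖mo s E (fun z => 1 / z) + h1 * (ms s E : ℂ)‖ ≤
      C1 * η + C2 * ∫ z in ball (0 : ℂ) s, ‖z‖ * E z := by
    have e : mo s E (fun z => 1 / z) + h1 * (ms s E : ℂ) =
        (mo s E (fun z => 1 / z) + h1 * (ms s E : ℂ) + mo s E e1) - mo s E e1 := by ring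
    rw [e]
    exact (norm_sub_le _ _).trans (add_le_add hkey he1b)
  -- second relation
  set e2 : ℂ → ℂ := fun z => (deriv h z - h1 - h2 * z) * (1 / z) with he2
  have he2c : IntegrableOn (fun z => e2 z * (E z : ℂ)) (ball (0 : ℂ) s) :=
    n1b_int hE hsr' (f := fun z => deriv h z - h1 - h2 * z)
      ((hhc.sub continuousOn_const).sub (by fun_prop))
  have he2b : ‖mo s E e2‖ ≤ C2 * ∫ z in ball (0 : ℂ) s, ‖z‖ * E z := by
    have hb := n1x_bound (s := s) (C := C2) hE hE0 (f := e2) (k := 1) ?_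
    · simpa using hb
    · intro z hz
      have hz' : z ∈ ball (0 : ℂ) r := ball_subset_ball (by linarith) hz
      have hq := hcq z hz'
      rcases eq_or_ne z 0 with h0 | h0
      · subst h0
        simp [he2]
      · have hzp : 0 < ‖z‖ := norm_pos_iff.2 h0
        simp only [he2]
        rw [norm_mul, norm_div, norm_one, pow_one]
        calc ‖deriv h z - h1 - h2 * z‖ * (1 / ‖z‖) ≤ (C0 * ‖z‖ ^ 2) * (1 / ‖z‖) := by gcongr
          _ = C0 * ‖z‖ := by field_simp
          _ ≤ C2 * ‖z‖ := by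
            have : 0 ≤ Λ / 4 * ‖z‖ := by positivity
            rw [hC2]; linarith
  have hG : mo s E (fun z => deriv h z / z) =
      h1 * mo s E (fun z => 1 / z) + h2 * (ms s E : ℂ) + mo s E e2 := by
    rw [← n1x_mo_const, ← n1b_cmul h1]
    have g0 : IntegrableOn (fun z => (h1 * (1 / z)) * (E z : ℂ)) (ball (0 : ℂ) s) :=
      n1b_int hE hsr' (f := fun _ => h1) continuousOn_const
    have g1 : IntegrableOn (fun z => (h1 * (1 / z) + h2) * (E z : ℂ)) (ball (0 : ℂ) s) := by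
      refine (g0.add (hI (fun _ => h2) continuousOn_const)).congr_fun (fun z _ => ?_)
        measurableSet_ball
      simp only [Pi.add_apply]
      ring
    rw [← n1b_add g0 (hI _ continuousOn_const), ← n1b_add g1 he2c]
    unfold mo
    apply integral_congr_ae
    filter_upwards [n1b_ne s] with z hz
    congr 1
    simp only [he2]
    field_simp
    ring
  have key2 := hRI2 lam η h E hL hlam hh hM hη
  rw [hG] at key2
  have hB : ‖h1 * mo s E (fun z => 1 / z) + h2 * (ms s E : ℂ) -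
      lam / 4 * mo s E (fun z => conj z / z) + 1 / (8 * π) * mo s E (fun z => 1 / z) ^ 2‖ ≤
      C3 * η * (1 + ‖mo s E (fun z => 1 / z)‖) + C2 * ∫ z in ball (0 : ℂ) s, ‖z‖ * E z := by
    have e : h1 * mo s E (fun z => 1 / z) + h2 * (ms s E : ℂ) -
      lam / 4 * mo s E (fun z => conj z / z) + 1 / (8 * π) * mo s E (fun z => 1 / z) ^ 2 =
      (h1 * mo s E (fun z => 1 / z) + h2 * (ms s E : ℂ) + mo s E e2 -
      lam / 4 * mo s E (fun z => conj z / z) + 1 / (8 * π) * mo s E (fun z => 1 / z) ^ 2) -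
        mo s E e2 := by ring
    rw [e]
    exact (norm_sub_le _ _).trans (add_le_add key2 he2b)
  refine ⟨hA.trans ?_, hB.trans ?_⟩
  · nlinarith [mul_nonneg hC3 hηge, mul_nonneg hC2' hηge, mul_nonneg hC1' hT1,
      mul_nonneg hC3 hT1]
  · have hx : 0 ≤ η * (1 + ‖mo s E (fun z => 1 / z)‖) := by positivity
    nlinarith [mul_nonneg hC1' hx, mul_nonneg hC2' hx, mul_nonneg hC1' hT1,
      mul_nonneg hC3 hT1]

theorem pr_n1b (h1 : S_RIp) (h2 : S_RI2) (h3 : S_BUf) : S_n1b := by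
  intro r H Λ lam h E hB s hs hsr
  obtain ⟨hr, hH, hΛ⟩ := n1x_H hB
  obtain ⟨M0, hM0⟩ : ∃ M0, ∀ j, ms r (E j) ≤ M0 := by
    obtain ⟨M0, hM0⟩ := hB.mass.bddAbove_range
    exact ⟨M0, fun j => hM0 ⟨j, rfl⟩⟩
  obtain ⟨C0, hC0, hCau⟩ := n1x_cauchy r H hr hH
  obtain ⟨C, hC, hstep⟩ := n1b_step h1 h2 r s H Λ M0 hs hsr hH hΛ
  obtain ⟨Cs, hCs⟩ := hB.out s hs
  obtain ⟨f1, -, f3, -, -⟩ := h3 r 1 H Λ lam h E hB (fun _ => 0) tendsto_const_nhds s hs
    (by linarith)
  set T1 : ℕ → ℝ := fun j => ∫ z in ball (0 : ℂ) s, ‖z‖ * E j z with hT1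
  set p : ℕ → ℂ := fun j => mo s (E j) (fun z => 1 / z) with hp
  set P : ℕ → ℂ := fun j => mo s (E j) (fun z => conj z / z) with hP
  set M : ℕ → ℂ := fun j => (ms s (E j) : ℂ) with hM
  set d1 : ℕ → ℂ := fun j => deriv (h j) 0 with hd1
  set d2 : ℕ → ℂ := fun j => deriv (deriv (h j)) 0 with hd2
  have hpi : (π : ℂ) ≠ 0 := by exact_mod_cast Real.pi_ne_zero
  have het : ∀ j, 0 < et (h j) := fun j => Real.exp_pos _
  have hst : ∀ j, _ := fun j => hstep (lam j) (|Cs| * et (h j)) (h j) (E j) (hB.loc j)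
    (hB.lamb j) (hB.hH j) (hM0 j) (fun z hz hsz => (hCs j z hz hsz).trans
      (mul_le_mul_of_nonneg_right (le_abs_self _) (het j).le))
  have hd1b : ∀ j, ‖d1 j‖ ≤ H := fun j => hB.hH j 0 (mem_ball_self hr)
  have hd2b : ∀ j, ‖d2 j‖ ≤ C0 := fun j => (hCau (h j) (hB.loc j).an (hB.hH j)).1
  have hMc : Tendsto M atTop (𝓝 (16 * π : ℂ)) := by
    have : Tendsto M atTop (𝓝 ((8 * π * (1 + ((1 : ℕ) : ℝ)) : ℝ) : ℂ)) :=
      (continuous_ofReal.tendsto _).comp f1
    have e : ((8 * π * (1 + ((1 : ℕ) : ℝ)) : ℝ) : ℂ) = 16 * π := by push_cast; ring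
    rwa [e] at this
  -- bounded times null
  have bn : ∀ (a b : ℕ → ℂ) (B : ℝ), (∀ j, ‖a j‖ ≤ B) → Tendsto b atTop (𝓝 0) →
      Tendsto (fun j => a j * b j) atTop (𝓝 0) := by
    intro a b B ha hb
    have hg : Tendsto (fun j => B * ‖b j‖) atTop (𝓝 0) := by
      have := (tendsto_norm_zero.comp hb).const_mul B
      simpa using this
    refine squeeze_zero_norm (fun j => ?_) hg
    rw [norm_mul]
    exact mul_le_mul_of_nonneg_right (ha j) (norm_nonneg _)
  have hMd : Tendsto (fun j => M j - 16 * π) atTop (𝓝 0) := by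
    have := hMc.sub_const (16 * (π : ℂ))
    simpa using this
  -- p + 16 pi d1 -> 0
  have hq0 : Tendsto (fun j => p j + d1 j * M j) atTop (𝓝 0) := by
    have hlim : Tendsto (fun j => C * (|Cs| * et (h j) + T1 j)) atTop (𝓝 0) := by
      have := ((hB.small.const_mul |Cs|).add f3).const_mul C
      simpa using this
    exact squeeze_zero_norm (fun j => (hst j).1) hlim
  have hq : Tendsto (fun j => p j + 16 * π * d1 j) atTop (𝓝 0) := by
    have := hq0.sub (bn d1 (fun j => M j - 16 * π) H hd1b hMd)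
    rw [sub_zero] at this
    refine this.congr fun j => ?_
    ring
  obtain ⟨Bq, hBq⟩ : ∃ B, ∀ j, ‖p j + 16 * π * d1 j‖ ≤ B := by
    obtain ⟨B, hB'⟩ := hq.norm.bddAbove_range
    exact ⟨B, fun j => hB' ⟨j, rfl⟩⟩
  have hpb : ∀ j, ‖p j‖ ≤ Bq + 16 * π * H := by
    intro j
    have e : p j = (p j + 16 * π * d1 j) - 16 * π * d1 j := by ring
    rw [e]
    refine (norm_sub_le _ _).trans (add_le_add (hBq j) ?_)
    rw [norm_mul, norm_mul, Complex.norm_real, Real.norm_of_nonneg Real.pi_pos.le]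
    have : ‖(16 : ℂ)‖ = 16 := by norm_num
    rw [this]
    exact mul_le_mul_of_nonneg_left (hd1b j) (by positivity)
  -- second relation
  have hY : Tendsto (fun j => d1 j * p j + d2 j * M j - lam j / 4 * P j +
      1 / (8 * π) * p j ^ 2) atTop (𝓝 0) := by
    set Bp : ℝ := Bq + 16 * π * H with hBp
    have hlim : Tendsto (fun j => C * (|Cs| * et (h j) * (1 + Bp) + T1 j)) atTop (𝓝 0) := by
      have := (((hB.small.const_mul |Cs|).mul_const (1 + Bp)).add f3).const_mul C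
      simpa using this
    refine squeeze_zero_norm (fun j => ((hst j).2).trans ?_) hlim
    have h1' : 1 + ‖p j‖ ≤ 1 + Bp := by linarith [hpb j]
    have h2' : 0 ≤ |Cs| * et (h j) := mul_nonneg (abs_nonneg _) (het j).le
    have h3' : |Cs| * et (h j) * (1 + ‖p j‖) ≤ |Cs| * et (h j) * (1 + Bp) :=
      mul_le_mul_of_nonneg_left h1' h2'
    exact mul_le_mul_of_nonneg_left (by linarith) hC
  -- combination
  have z1 : Tendsto (fun j => d1 j * (p j + 16 * π * d1 j)) atTop (𝓝 0) := bn _ _ H hd1b hq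
  have z2 : Tendsto (fun j => d2 j * (M j - 16 * π)) atTop (𝓝 0) := bn _ _ C0 hd2b hMd
  have z3 : Tendsto (fun j => (p j - 16 * π * d1 j) * (p j + 16 * π * d1 j)) atTop (𝓝 0) := by
    refine bn _ _ (Bq + 16 * π * H + 16 * π * H) (fun j => ?_) hq
    refine (norm_sub_le _ _).trans (add_le_add (hpb j) ?_)
    rw [norm_mul, norm_mul, Complex.norm_real, Real.norm_of_nonneg Real.pi_pos.le]
    have : ‖(16 : ℂ)‖ = 16 := by norm_num
    rw [this]
    exact mul_le_mul_of_nonneg_left (hd1b j) (by positivity)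
  have hfin := (((hY.sub z1).sub z2).sub (z3.const_mul (1 / (8 * (π : ℂ))))).const_mul
    (1 / (16 * (π : ℂ)))
  simp only [sub_zero, mul_zero] at hfin
  refine hfin.congr fun j => ?_
  field_simp
  ring

end Pool.Agent.Vx
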