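import Pool.Agent.Work.MP_afe918_an.Bd.B07
import Pool.Agent.Work.MP_afe918_an.Bd.B01
import Pool.Agent.Work.MP_afe918_an.Bd.B04
import Pool.Agent.Work.MP_afe918_an.Bd.B05
import Pool.Agent.Work.MP_afe918_an.Bd.B06
import Pool.Agent.Work.MP_afe918_an.Bd.B02
import Pool.Agent.Work.MP_afe918_an.Bd.B10
import Pool.Agent.Work.MP_afe918_an.Bd.B11
import Pool.Agent.Work.MP_afe918_an.Bd.B03
import Pool.Agent.Work.MP_afe918_an.Bd.B08
import Pool.Agent.Work.MP_afe918_an.Bd.B09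
import Pool.Agent.Work.MP_afe918_an.n1b

/-!
# MP_afe918_an: all items put together
-/

set_option autoImplicit false

open Complex Set Filter Topology MeasureTheory Metric
open scoped Real ContDiff ComplexConjugate

namespace Pool.Agent.Vx

theorem all_S_Ext : S_Ext :=
  pr_Ext

theorem all_S_Ti : S_Ti :=
  pr_Ti

theorem all_S_TExt : S_TExt :=
  pr_TExt all_S_Ext all_S_Ti

theorem all_S_GPhi : S_GPhi :=
  pr_GPhi

theorem all_S_GSf : S_GSf :=
  pr_GSf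

theorem all_S_GHw : S_GHw :=
  pr_GHw all_S_GSf

theorem all_S_GGr : S_GGr :=
  pr_GGr all_S_GSf all_S_GPhi all_S_Ti

theorem all_S_LogI : S_LogI :=
  pr_LogI

theorem all_S_Riesz : S_Riesz :=
  pr_Riesz

theorem all_S_Far : S_Far :=
  pr_Far

theorem all_S_LocRep : S_LocRep :=
  pr_LocRep all_S_GPhi all_S_GHw all_S_Ti all_S_GGr all_S_LogI all_S_Riesz all_S_Far

theorem all_S_Scale : S_Scale :=
  pr_Scale

theorem all_S_Small : S_Small :=
  pr_Small all_S_Riesz all_S_LogI all_S_Scale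

theorem all_S_Off : S_Off :=
  pr_Off all_S_LocRep all_S_Small

theorem all_S_OffK : S_OffK :=
  pr_OffK all_S_Off

theorem all_S_GTr : S_GTr :=
  pr_GTr all_S_GGr all_S_Ti

theorem all_S_cUp : S_cUp :=
  pr_cUp all_S_GGr all_S_GHw all_S_Ti

theorem all_S_Case1 : S_Case1 :=
  pr_Case1 all_S_GGr all_S_GTr all_S_GHw all_S_cUp all_S_Ti

theorem all_S_PotD : S_PotD :=
  pr_PotD all_S_Riesz all_S_LogI

theorem all_S_Id : S_Id :=
  pr_Id all_S_PotD all_S_Riesz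

theorem all_S_Cut : S_Cut :=
  pr_Cut

theorem all_S_Poh : S_Poh :=
  pr_Poh all_S_Id all_S_Cut

theorem all_S_Quant : S_Quant :=
  pr_Quant all_S_Poh

theorem all_S_Conc : S_Conc :=
  pr_Conc all_S_LocRep all_S_Quant all_S_Ti

theorem all_S_cDown : S_cDown :=
  pr_cDown all_S_LocRep all_S_Ti

theorem all_S_QuantE : S_QuantE :=
  pr_QuantE all_S_Poh all_S_Quant

theorem all_S_BUq : S_BUq :=
  pr_BUq all_S_LocRep all_S_OffK all_S_QuantE all_S_GHw all_S_Ti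

theorem all_S_A : S_A :=
  pr_A

theorem all_S_BUf : S_BUf :=
  pr_BUf all_S_A

theorem all_S_RIp : S_RIp :=
  pr_RIp all_S_Id all_S_Cut all_S_Riesz

theorem all_S_n0 : S_n0 :=
  pr_n0 all_S_RIp all_S_A all_S_BUf

theorem all_S_n2 : S_n2 :=
  pr_n2 all_S_RIp all_S_A all_S_BUf

theorem all_S_n1a : S_n1a :=
  pr_n1a all_S_RIp all_S_A all_S_BUf

theorem all_S_Id2 : S_Id2 :=
  pr_Id2 all_S_PotD all_S_Riesz

theorem all_S_RI2 : S_RI2 :=
  pr_RI2 all_S_Id2 all_S_Cut all_S_Riesz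

theorem all_S_n1b : S_n1b :=
  pr_n1b all_S_RIp all_S_RI2 all_S_BUf

theorem all_S_n1c : S_n1c :=
  pr_n1c all_S_n1a all_S_n1b all_S_A all_S_BUf

theorem all_S_Rot : S_Rot :=
  pr_Rot

theorem all_S_PLx : S_PLx :=
  pr_PLx all_S_Scale all_S_Rot all_S_BUf

theorem all_S_WSub : S_WSub :=
  pr_WSub

theorem all_S_Rec0 : S_Rec0 :=
  pr_Rec0 all_S_Far all_S_LogI

theorem all_S_Rec1 : S_Rec1 :=
  pr_Rec1 all_S_Far all_S_LogI

theorem all_S_WLoc : S_WLoc :=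
  pr_WLoc all_S_Small all_S_Rec0 all_S_Rec1 all_S_Riesz

theorem all_S_WVan : S_WVan :=
  pr_WVan all_S_WLoc

theorem all_S_WNo0 : S_WNo0 :=
  pr_WNo0 all_S_Rec0 all_S_Quant

theorem all_S_WQ : S_WQ :=
  pr_WQ all_S_Rec1 all_S_Quant

theorem all_S_WBal : S_WBal :=
  pr_WBal all_S_Id all_S_Cut

theorem all_S_WTwo : S_WTwo :=
  pr_WTwo all_S_Ext all_S_WSub all_S_WVan all_S_WNo0 all_S_WQ all_S_WBal

theorem all_S_WUB : S_WUB :=
  pr_WUB all_S_WLoc

theorem all_S_WCmp : S_WCmp :=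
  pr_WCmp all_S_WUB all_S_LogI

theorem all_S_WKap : S_WKap :=
  pr_WKap all_S_WCmp all_S_WUB

theorem all_S_WRI : S_WRI :=
  pr_WRI all_S_RIp

theorem all_S_WTay : S_WTay :=
  pr_WTay

theorem all_S_WScale : S_WScale :=
  pr_WScale all_S_WUB all_S_Rec1 all_S_Small

theorem all_S_WEta : S_WEta :=
  pr_WEta

theorem all_S_WTail1 : S_WTail1 :=
  pr_WTail1 all_S_WScale all_S_WEta all_S_WKap all_S_WUB all_S_LogI

theorem all_S_WMom : S_WMom :=
  pr_WMom all_S_WTail1 all_S_WKap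

theorem all_S_WD : S_WD :=
  pr_WD all_S_WRI all_S_WTay all_S_WMom all_S_WTail1 all_S_WKap

theorem all_S_WTail2 : S_WTail2 :=
  pr_WTail2 all_S_WD all_S_WMom all_S_WEta all_S_WKap all_S_WScale all_S_LogI

theorem all_S_WPX : S_WPX :=
  pr_WPX all_S_WTwo all_S_WUB all_S_WKap all_S_WTail2 all_S_WD

theorem all_S_WBU : S_WBU :=
  pr_WBU all_S_Rec1 all_S_Riesz all_S_LogI

theorem all_S_WTB : S_WTB :=
  pr_WTB all_S_WBU all_S_n0 all_S_A all_S_BUf

theorem all_S_PLTB : S_PLTB :=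
  pr_PLTB all_S_WPX all_S_WTB

theorem all_S_WCf : S_WCf :=
  pr_WCf all_S_WTay

theorem all_S_WInt : S_WInt :=
  pr_WInt

theorem all_S_WAlg : S_WAlg :=
  pr_WAlg

theorem all_S_WM3 : S_WM3 :=
  pr_WM3

theorem all_S_WQf : S_WQf :=
  pr_WQf all_S_WTay all_S_WM3

theorem all_S_WAng : S_WAng :=
  pr_WAng all_S_WM3 all_S_LogI

theorem all_S_WLamT : S_WLamT :=
  pr_WLamT all_S_WAng all_S_WTay

theorem all_S_WThird : S_WThird :=
  pr_WThird

theorem all_S_WLamN : S_WLamN :=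
  pr_WLamN all_S_WTay all_S_WThird

theorem all_S_WLam : S_WLam :=
  pr_WLam all_S_WLamT all_S_WLamN all_S_WTay

theorem all_S_WExp : S_WExp :=
  pr_WExp all_S_WThird

theorem all_S_WS1 : S_WS1 :=
  pr_WS1 all_S_WRI all_S_WM3

theorem all_S_WMatch : S_WMatch :=
  pr_WMatch all_S_WExp all_S_WS1

theorem all_S_TBfin : S_TBfin :=
  pr_TBfin all_S_WRI all_S_WCf all_S_WInt all_S_WAlg all_S_WQf all_S_WLam all_S_WExp all_S_WMatch all_S_WM3 all_S_WTay

theorem all_S_LT : S_LT :=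
  pr_LT all_S_A all_S_BUf all_S_n0 all_S_n2 all_S_n1c all_S_PLx all_S_PLTB all_S_TBfin

theorem all_S_Case2 : S_Case2 :=
  pr_Case2 all_S_Conc all_S_cDown all_S_OffK all_S_BUq all_S_GHw all_S_Ti all_S_LT

theorem all_S_Closed : S_Closed :=
  pr_Closed all_S_TExt all_S_OffK all_S_Case1 all_S_Case2 all_S_GHw

theorem all_S_Tprod : S_Tprod :=
  pr_Tprod

theorem all_S_Tadd : S_Tadd :=
  pr_Tadd all_S_Tprod

theorem all_S_Tint : S_Tint :=
  pr_Tint all_S_Tadd all_S_LogI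

theorem all_S_Tlog : S_Tlog :=
  pr_Tlog all_S_Tprod

theorem all_S_Tfou : S_Tfou :=
  pr_Tfou all_S_Tprod all_S_Tlog all_S_Tadd all_S_Tint all_S_Ti

theorem all_S_ThetaEx : S_ThetaEx :=
  pr_ThetaEx all_S_Tadd all_S_Tint all_S_Tfou

theorem all_S_R1 : S_R1 :=
  pr_R1 all_S_PotD all_S_LogI all_S_Riesz all_S_Far

theorem all_S_R2 : S_R2 :=
  pr_R2 all_S_LocRep all_S_GHw all_S_R1

theorem all_S_R3 : S_R3 :=
  pr_R3 all_S_Ti

theorem all_S_R4 : S_R4 :=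
  pr_R4 all_S_GGr all_S_GTr all_S_Ti all_S_GSf

theorem all_S_R5 : S_R5 :=
  pr_R5 all_S_Ti

theorem all_S_R6 : S_R6 :=
  pr_R6 all_S_R3 all_S_R4 all_S_R5

theorem all_S_Reg : S_Reg :=
  pr_Reg all_S_R2 all_S_R3 all_S_R4 all_S_R6 all_S_GHw all_S_GGr all_S_GSf all_S_Ti

theorem all_S_Nec : S_Nec :=
  pr_Nec all_S_Ti

theorem all_V_G : V_G :=
  pr_V_G all_S_GSf all_S_GPhi all_S_GGr

theorem all_V_tr : V_tr :=
  pr_V_tr all_S_Ti

theorem all_V_conv : V_conv :=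
  pr_V_conv all_V_G all_V_tr all_S_GTr

theorem all_V_gfou : V_gfou :=
  pr_V_gfou all_V_G

theorem all_V_Pars : V_Pars :=
  pr_V_Pars

theorem all_V_orth : V_orth :=
  pr_V_orth

theorem all_V_dual : V_dual :=
  pr_V_dual all_V_Pars all_V_orth all_V_conv all_V_gfou

theorem all_V_exp : V_exp :=
  pr_V_exp all_V_G

theorem all_V_gib : V_gib :=
  pr_V_gib all_V_G all_V_tr all_V_conv all_V_exp

theorem all_V_imt : V_imt :=
  pr_V_imt all_V_G all_V_tr all_V_conv all_V_gfou all_V_dual all_V_exp all_V_gib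

theorem all_V_mom : V_mom :=
  pr_V_mom

theorem all_V_Gup : V_Gup :=
  pr_V_Gup all_V_G

theorem all_V_jen : V_jen :=
  pr_V_jen all_V_tr

theorem all_V_low : V_low :=
  pr_V_low all_V_imt all_V_mom all_V_Gup all_V_jen all_V_tr

theorem all_V_cov : V_cov :=
  pr_V_cov

theorem all_V_max : V_max :=
  pr_V_max

theorem all_V_cnc : V_cnc :=
  pr_V_cnc all_V_cov all_V_max

theorem all_V_kg : V_kg :=
  pr_V_kg

theorem all_V_D : V_D :=
  pr_V_D

theorem all_V_reg : V_reg :=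
  pr_V_reg all_V_kg all_V_D

theorem all_V_k1 : V_k1 :=
  pr_V_k1 all_V_tr

theorem all_V_en : V_en :=
  pr_V_en all_V_D all_V_kg all_V_k1 all_V_reg

theorem all_V_k2 : V_k2 :=
  pr_V_k2 all_V_tr all_V_D

theorem all_V_mean : V_mean :=
  pr_V_mean all_V_D all_V_k2 all_V_reg

theorem all_V_k3 : V_k3 :=
  pr_V_k3 all_V_tr all_V_D

theorem all_V_lwl : V_lwl :=
  pr_V_lwl all_V_k3 all_V_reg

theorem all_V_mpos : V_mpos :=
  pr_V_mpos all_V_k2 all_V_k3 all_V_reg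

theorem all_V_TF : V_TF :=
  pr_V_TF all_V_cnc all_V_reg all_V_en all_V_mean all_V_lwl all_V_mpos

theorem all_V_Bes : V_Bes :=
  pr_V_Bes all_V_Pars

theorem all_V_proj : V_proj :=
  pr_V_proj all_V_Pars all_V_Bes all_V_orth all_V_tr

theorem all_V_MT : V_MT :=
  pr_V_MT all_V_imt all_V_tr

theorem all_V_grad : V_grad :=
  pr_V_grad all_V_jen all_V_orth

theorem all_V_lnk : V_lnk :=
  pr_V_lnk all_V_TF all_V_proj all_V_MT all_V_jen all_V_grad all_V_orth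

theorem all_V_MM : V_MM :=
  prf_V_MM

theorem all_V_bro : V_bro :=
  pr_V_bro

theorem all_V_crit : V_crit :=
  pr_V_crit all_V_low all_V_lnk all_V_MM all_V_bro all_V_grad

theorem all_V_ap : V_ap :=
  pr_V_ap all_V_Bes all_V_MT all_V_jen all_V_orth

theorem all_V_cpt : V_cpt :=
  pr_V_cpt

theorem all_V_hw : V_hw :=
  pr_V_hw all_V_G all_V_tr

theorem all_V_ex : V_ex :=
  pr_V_ex all_V_crit all_V_ap all_V_cpt all_V_hw all_V_Bes all_V_gfou all_V_conv all_V_orth all_V_jen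

theorem all_S_Exist : S_Exist := by
  intro a b F m p n hF _ _ k s1 s2 _ h1 h2 h3
  obtain ⟨ρ, hρ, v, c, h⟩ := all_V_ex a b F hF m p n k s1 s2 h1 h2 h3
  exact ⟨ρ, hρ.1, hρ.2, v, c, h⟩

theorem main_all (a b mW e : ℝ) (ha : 0 < a) (hb : 0 < b) (hm : 0 < mW) (he : 0 < e) (m : ℕ)
    (p : Fin m → ℂ) (n : Fin m → ℕ) (hn : ∀ l, 0 < n l) (hp : Dist a b p) :
    (∃ u, IsSol a b mW e p n u) ↔ mW ^ 2 < 2 * π * Nv n / (a * b) :=
  main_of_blocks all_S_ThetaEx all_S_Exist all_S_Closed all_S_Reg all_S_Nec a b mW e ha hb hm he m p n hn hp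

end Pool.Agent.Vx
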