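import Pool.Agent.Work.MP_afe918_an.Bd.B01

/-!
# MP_afe918_an, item Bal: balance of forces at a regular concentration point
-/

set_option autoImplicit false

open Complex Set Filter Topology MeasureTheory Metric
open scoped Real ContDiff ComplexConjugate

namespace Pool.Agent.Vx

/-- Wirtinger derivative of a real function. -/
lemma Bal_dz {χ : ℂ → ℝ} (hχ : ContDiff ℝ ∞ χ) (z : ℂ) :
    dz (fun z => (χ z : ℂ)) z = ((fderiv ℝ χ z 1 : ℝ) - I * (fderiv ℝ χ z I : ℝ)) / 2 := by
  have hd : DifferentiableAt ℝ χ z := (hχ.differentiable (by simp)).differentiableAt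
  have h1 : fderiv ℝ (fun z => (χ z : ℂ)) z = Complex.ofRealCLM.comp (fderiv ℝ χ z) :=
    (Complex.ofRealCLM.hasFDerivAt.comp z hd.hasFDerivAt).fderiv
  unfold dz
  rw [h1]
  simp

lemma Bal_dz_le {χ : ℂ → ℝ} (hχ : ContDiff ℝ ∞ χ) {L : ℝ} (z : ℂ) (hL : ‖fderiv ℝ χ z‖ ≤ L) :
    ‖dz (fun z => (χ z : ℂ)) z‖ ≤ L := by
  rw [Bal_dz hχ]
  have e1 : |fderiv ℝ χ z 1| ≤ L := by
    have := (fderiv ℝ χ z).le_opNorm 1
    rw [Real.norm_eq_abs] at this
    simp only [norm_one, mul_one] at this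
    exact this.trans hL
  have e2 : |fderiv ℝ χ z I| ≤ L := by
    have := (fderiv ℝ χ z).le_opNorm I
    rw [Real.norm_eq_abs] at this
    simp only [norm_I, mul_one] at this
    exact this.trans hL
  rw [norm_div]
  have e3 : ‖((fderiv ℝ χ z 1 : ℝ) : ℂ) - I * ((fderiv ℝ χ z I : ℝ) : ℂ)‖ ≤ L + L := by
    refine (norm_sub_le _ _).trans (add_le_add ?_ ?_)
    · rw [Complex.norm_real, Real.norm_eq_abs]
      exact e1
    · rw [norm_mul, norm_I, one_mul, Complex.norm_real, Real.norm_eq_abs]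
      exact e2
  have e4 : ‖(2 : ℂ)‖ = 2 := by simp
  rw [e4, div_le_iff₀ (by norm_num)]
  linarith

lemma Bal_dz_cont {χ : ℂ → ℝ} (hχ : ContDiff ℝ ∞ χ) :
    Continuous (dz (fun z => (χ z : ℂ))) := by
  have h0 : Continuous (fderiv ℝ χ) := hχ.continuous_fderiv (by simp)
  have h1 : (dz (fun z => (χ z : ℂ))) =
      fun z => ((fderiv ℝ χ z 1 : ℝ) - I * (fderiv ℝ χ z I : ℝ)) / 2 := by
    funext z
    exact Bal_dz hχ z
  rw [h1]
  have h2 : Continuous fun z => fderiv ℝ χ z 1 := h0.clm_apply continuous_const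
  have h3 : Continuous fun z => fderiv ℝ χ z I := h0.clm_apply continuous_const
  fun_prop

lemma Bal_core (h1 : S_Id) {χ : ℂ → ℝ} {r L : ℝ} (hr : 0 < r) (hχs : ContDiff ℝ ∞ χ)
    (hχ01 : ∀ z, 0 ≤ χ z ∧ χ z ≤ 1) (hχ1 : ∀ z, ‖z‖ ≤ r / 4 → χ z = 1)
    (hχ0 : ∀ z, 3 / 2 * (r / 4) ≤ ‖z‖ → χ z = 0) (hχd : ∀ z, ‖fderiv ℝ χ z‖ ≤ L)
    (hχl : ∀ z y, |χ z - χ y| ≤ L * ‖z - y‖) {lam H Λ M0 : ℝ} {h : ℂ → ℂ} {E : ℂ → ℝ}
    (hl : Loc r 0 lam h E) (hlam : lam ≤ Λ) (hH : ∀ z ∈ ball (0 : ℂ) (r / 2), ‖deriv h z‖ ≤ H)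
    (hM : ms r E ≤ M0) :
    ‖mo (r / 4) E (fun z => deriv h z - lam / 4 * conj z)‖ ≤
      (L + (H + Λ / 4 * r) + 2 * L * M0) * (ms r E - ms (r / 4) E) := by
  have hL0 : 0 ≤ L := (norm_nonneg _).trans (hχd 0)
  have hH0 : 0 ≤ H := (norm_nonneg _).trans (hH 0 (mem_ball_self (by positivity)))
  have hlam0 := hl.lam0
  have hΛ0 : 0 ≤ Λ := hlam0.trans hlam
  -- integrability
  have hEi : ∀ s : ℝ, IntegrableOn E (ball (0 : ℂ) s) := fun s =>
    (hl.cont.continuousOn.integrableOn_compact (isCompact_closedBall (0 : ℂ) s)).mono_set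
      ball_subset_closedBall
  set e : ℂ → ℝ := (ball (0 : ℂ) (r / 4))ᶜ.indicator E with he
  have he0 : ∀ z, 0 ≤ e z := fun z => indicator_nonneg (fun z _ => hl.nonneg z) z
  have hei : IntegrableOn e (ball (0 : ℂ) r) :=
    (hEi r).indicator measurableSet_ball.compl
  have hsub : ball (0 : ℂ) (r / 4) ⊆ ball (0 : ℂ) r := ball_subset_ball (by linarith)
  have hsplit : ms (r / 4) E + ∫ z in ball (0 : ℂ) r \ ball 0 (r / 4), E z = ms r E := by
    have := integral_inter_add_sdiff (μ := volume) (s := ball (0 : ℂ) r)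
      (t := ball (0 : ℂ) (r / 4)) measurableSet_ball (hEi r)
    rwa [inter_eq_self_of_subset_right hsub] at this
  set μ : ℝ := ms r E - ms (r / 4) E with hμ
  have hdiff : ∫ z in ball (0 : ℂ) r \ ball 0 (r / 4), E z = μ := by
    rw [hμ]; linarith
  have hμe : ∫ z in ball (0 : ℂ) r, e z = μ := by
    rw [he, setIntegral_indicator measurableSet_ball.compl, ← sdiff_eq, hdiff]
  have hμ0 : 0 ≤ μ := by
    rw [← hμe]
    exact integral_nonneg he0
  have hms0 : 0 ≤ ms r E := integral_nonneg hl.nonneg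
  -- the identity
  set ψ : ℂ → ℂ := fun z => (χ z : ℂ) with hψ
  have hψs : ContDiff ℝ 1 ψ := by
    have : ContDiff ℝ ∞ ψ := Complex.ofRealCLM.contDiff.comp hχs
    exact this.of_le (by simp)
  have hid := h1 r 0 lam h E hl ψ hψs ⟨3 / 2 * (r / 4), by linarith, fun z hz => by
    simp only [hψ]
    rw [hχ0 z hz, Complex.ofReal_zero]⟩
  set F : ℂ → ℂ := fun z => (dz ψ z + ψ z * (((0 : ℕ) : ℂ) / z + deriv h z -
    lam / 4 * conj z)) * (E z : ℂ) with hF
  -- bound for F
  have hFb : ∀ z ∈ ball (0 : ℂ) r, ‖F z‖ ≤ (L + (H + Λ / 4 * r)) * E z := by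
    intro z hz
    have hE0 := hl.nonneg z
    simp only [hF]
    rw [norm_mul, Complex.norm_real, Real.norm_eq_abs, abs_of_nonneg hE0]
    refine mul_le_mul_of_nonneg_right ?_ hE0
    refine (norm_add_le _ _).trans (add_le_add (Bal_dz_le hχs z (hχd z)) ?_)
    rw [norm_mul]
    by_cases hz3 : 3 / 2 * (r / 4) ≤ ‖z‖
    · simp only [hψ]
      rw [hχ0 z hz3, Complex.ofReal_zero, norm_zero, zero_mul]
      positivity
    · rw [not_le] at hz3
      have h3 : ‖ψ z‖ ≤ 1 := by
        simp only [hψ]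
        rw [Complex.norm_real, Real.norm_eq_abs, abs_of_nonneg (hχ01 z).1]
        exact (hχ01 z).2
      have h4 : ‖((0 : ℕ) : ℂ) / z + deriv h z - lam / 4 * conj z‖ ≤ H + Λ / 4 * r := by
        rw [Nat.cast_zero, zero_div, zero_add]
        refine (norm_sub_le _ _).trans (add_le_add (hH z ?_) ?_)
        · rw [mem_ball_zero_iff]
          linarith
        · rw [norm_mul, RCLike.norm_conj]
          have h5 : ‖(lam : ℂ) / 4‖ = lam / 4 := by
            rw [norm_div, Complex.norm_real, Real.norm_eq_abs, abs_of_nonneg hlam0]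
            simp
          rw [h5]
          refine mul_le_mul (by linarith) (by linarith) (norm_nonneg _) (by positivity)
      calc ‖ψ z‖ * ‖((0 : ℕ) : ℂ) / z + deriv h z - lam / 4 * conj z‖
          ≤ 1 * (H + Λ / 4 * r) := mul_le_mul h3 h4 (norm_nonneg _) (by norm_num)
        _ = _ := one_mul _
  have hFc : ContinuousOn F (ball (0 : ℂ) r) := by
    have hdc : ContinuousOn (deriv h) (ball (0 : ℂ) r) :=
      (hl.an.deriv isOpen_ball).continuousOn
    have h6 : F = fun z => (dz ψ z + ψ z * (deriv h z - lam / 4 * conj z)) * (E z : ℂ) := by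
      funext z
      simp only [hF, Nat.cast_zero, zero_div, zero_add]
    rw [h6]
    refine ContinuousOn.mul (ContinuousOn.add (Bal_dz_cont hχs).continuousOn
      (ContinuousOn.mul hψs.continuous.continuousOn (hdc.sub ?_))) ?_
    · exact (continuous_const.mul Complex.continuous_conj).continuousOn
    · exact (Complex.continuous_ofReal.comp hl.cont).continuousOn
  have hFi : IntegrableOn F (ball (0 : ℂ) r) := by
    refine Integrable.mono' ((hEi r).const_mul (L + (H + Λ / 4 * r)))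
      (hFc.aestronglyMeasurable measurableSet_ball) ?_
    exact ae_restrict_of_forall_mem measurableSet_ball hFb
  have hFsplit := integral_inter_add_sdiff (μ := volume) (s := ball (0 : ℂ) r)
      (t := ball (0 : ℂ) (r / 4)) measurableSet_ball hFi
  rw [inter_eq_self_of_subset_right hsub] at hFsplit
  have hFin : ∫ z in ball (0 : ℂ) (r / 4), F z =
      mo (r / 4) E (fun z => deriv h z - lam / 4 * conj z) := by
    unfold mo
    refine setIntegral_congr_fun measurableSet_ball fun z hz => ?_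
    rw [mem_ball_zero_iff] at hz
    have h7 : dz ψ z = 0 := by
      rw [Bal_dz hχs]
      have h8 : fderiv ℝ χ z = 0 := by
        have h9 : χ =ᶠ[𝓝 z] fun _ => 1 := by
          have : ball (0 : ℂ) (r / 4) ∈ 𝓝 z := isOpen_ball.mem_nhds (by
            rw [mem_ball_zero_iff]; exact hz)
          filter_upwards [this] with y hy
          rw [mem_ball_zero_iff] at hy
          exact hχ1 y hy.le
        rw [h9.fderiv_eq]
        simp
      rw [h8]
      simp
    simp only [hF]
    rw [h7]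
    simp only [hψ]
    rw [hχ1 z hz.le]
    simp
  have hRb : ‖∫ z in ball (0 : ℂ) r \ ball 0 (r / 4), F z‖ ≤ (L + (H + Λ / 4 * r)) * μ := by
    rw [← hdiff, ← integral_const_mul]
    refine norm_integral_le_of_norm_le (((hEi r).mono_set sdiff_subset).const_mul _) ?_
    exact ae_restrict_of_forall_mem (measurableSet_ball.diff measurableSet_ball)
      fun z hz => hFb z hz.1
  -- the double integral
  set D : ℂ := ∫ z in ball (0 : ℂ) r, ∫ y in ball (0 : ℂ) r,
      (ψ z - ψ y) / (z - y) * (E z : ℂ) * (E y : ℂ) with hD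
  have hq : ∀ z y, ‖(ψ z - ψ y) / (z - y) * (E z : ℂ) * (E y : ℂ)‖ ≤
      L * (E z * e y + e z * E y) := by
    intro z y
    have hEz := hl.nonneg z
    have hEy := hl.nonneg y
    have hez := he0 z
    have hey := he0 y
    have hgen : ‖(ψ z - ψ y) / (z - y)‖ ≤ L := by
      rw [norm_div]
      refine div_le_of_le_mul₀ (norm_nonneg _) hL0 ?_
      simp only [hψ]
      rw [← Complex.ofReal_sub, Complex.norm_real, Real.norm_eq_abs]
      exact hχl z y
    rw [norm_mul, norm_mul, Complex.norm_real, Complex.norm_real, Real.norm_eq_abs,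
      Real.norm_eq_abs, abs_of_nonneg hEz, abs_of_nonneg hEy]
    by_cases hz : z ∈ ball (0 : ℂ) (r / 4)
    · by_cases hy : y ∈ ball (0 : ℂ) (r / 4)
      · have h10 : ψ z - ψ y = 0 := by
          rw [mem_ball_zero_iff] at hz hy
          simp only [hψ]
          rw [hχ1 z hz.le, hχ1 y hy.le, sub_self]
        rw [h10, zero_div, norm_zero, zero_mul, zero_mul]
        positivity
      · have h11 : e y = E y := by
          rw [he]
          exact indicator_of_mem hy E
        rw [h11]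
        calc ‖(ψ z - ψ y) / (z - y)‖ * E z * E y ≤ L * E z * E y := by gcongr
          _ ≤ L * (E z * E y + e z * E y) := by
            have : 0 ≤ L * (e z * E y) := by positivity
            linarith
    · have h11 : e z = E z := by
        rw [he]
        exact indicator_of_mem hz E
      rw [h11]
      calc ‖(ψ z - ψ y) / (z - y)‖ * E z * E y ≤ L * E z * E y := by gcongr
        _ ≤ L * (E z * e y + E z * E y) := by
          have : 0 ≤ L * (E z * e y) := by positivity
          linarith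
  have hDb : ‖D‖ ≤ 2 * L * M0 * μ := by
    have hin : ∀ z, ‖∫ y in ball (0 : ℂ) r, (ψ z - ψ y) / (z - y) * (E z : ℂ) * (E y : ℂ)‖ ≤
        L * (E z * μ + e z * ms r E) := by
      intro z
      have h12 : ∫ y in ball (0 : ℂ) r, L * (E z * e y + e z * E y) =
          L * (E z * μ + e z * ms r E) := by
        rw [integral_const_mul, integral_add (hei.const_mul _) ((hEi r).const_mul _),
          integral_const_mul, integral_const_mul, hμe]
        rfl
      rw [← h12]
      refine norm_integral_le_of_norm_le ?_ (ae_of_all _ (hq z))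
      exact ((hei.const_mul _).add ((hEi r).const_mul _)).const_mul _
    have h13 : ∫ z in ball (0 : ℂ) r, L * (E z * μ + e z * ms r E) =
        L * (ms r E * μ + μ * ms r E) := by
      rw [integral_const_mul, integral_add ((hEi r).mul_const _) (hei.mul_const _),
        integral_mul_const, integral_mul_const, hμe]
      rfl
    have h14 : ‖D‖ ≤ L * (ms r E * μ + μ * ms r E) := by
      rw [← h13, hD]
      refine norm_integral_le_of_norm_le ?_ (ae_of_all _ hin)
      exact (((hEi r).mul_const _).add (hei.mul_const _)).const_mul _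
    refine h14.trans ?_
    have h15 : ms r E * μ ≤ M0 * μ := mul_le_mul_of_nonneg_right hM hμ0
    calc L * (ms r E * μ + μ * ms r E) = 2 * L * (ms r E * μ) := by ring
      _ ≤ 2 * L * (M0 * μ) := mul_le_mul_of_nonneg_left h15 (by positivity)
      _ = _ := by ring
  have hM0 : 0 ≤ M0 := hms0.trans hM
  have hc : ‖(1 : ℂ) / (8 * (π : ℂ))‖ ≤ 1 := by
    rw [norm_div, norm_one, norm_mul, Complex.norm_real, Real.norm_eq_abs, abs_of_pos Real.pi_pos]
    have : ‖(8 : ℂ)‖ = 8 := by simp
    rw [this, div_le_one (by positivity)]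
    nlinarith [Real.pi_gt_three]
  have hmo : mo (r / 4) E (fun z => deriv h z - lam / 4 * conj z) =
      1 / (8 * (π : ℂ)) * D - ∫ z in ball (0 : ℂ) r \ ball 0 (r / 4), F z := by
    rw [← hFin, eq_sub_iff_add_eq, hFsplit]
    exact hid
  rw [hmo]
  calc ‖1 / (8 * (π : ℂ)) * D - ∫ z in ball (0 : ℂ) r \ ball 0 (r / 4), F z‖
      ≤ ‖1 / (8 * (π : ℂ)) * D‖ + ‖∫ z in ball (0 : ℂ) r \ ball 0 (r / 4), F z‖ :=
        norm_sub_le _ _
    _ ≤ 1 * (2 * L * M0 * μ) + (L + (H + Λ / 4 * r)) * μ := by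
        refine add_le_add ?_ hRb
        rw [norm_mul]
        exact mul_le_mul hc hDb (norm_nonneg _) (by norm_num)
    _ = (L + (H + Λ / 4 * r) + 2 * L * M0) * μ := by ring

theorem pr_Bal (h1 : S_Id) (h2 : S_Cut) : S_Bal := by
  intro r H Λ M0 lam h E hloc hlam hH hM hconc
  have hr : 0 < r := (hloc 0).rpos
  obtain ⟨K, hK, hcut⟩ := h2
  obtain ⟨χ, hχs, hχ01, hχ1, hχ0, hχd, hχl⟩ := hcut (r / 4) (by positivity)
  have hlim := (hconc (r / 4) (by positivity) (by linarith)).const_mul
    (K / (r / 4) + (H + Λ / 4 * r) + 2 * (K / (r / 4)) * M0)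
  rw [mul_zero] at hlim
  refine squeeze_zero_norm (fun j => ?_) hlim
  exact Bal_core h1 hr hχs hχ01 hχ1 hχ0 hχd hχl (hloc j) (hlam j) (hH j) (hM j)

end Pool.Agent.Vx
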