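import Mathlib

/-!
# MP_afe918_an: doubly periodic W-condensed vortices (captain helper5): definitions

Final theorem: the equation `Δu = -2 mW² - 4 e² exp u + 4π ∑ n_l δ_(p_l)` on the torus
`ℂ / (aℤ + ibℤ)` has a solution if and only if `mW² < 2πN/(ab)`, for every configuration.
-/

set_option autoImplicit false

open Complex Set Filter Topology MeasureTheory Metric
open scoped Real ContDiff

namespace Pool.Agent.Vx

/-! ### The torus -/

/-- `z` is a point of the lattice `aℤ + ibℤ`. -/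
def Lat (a b : ℝ) (z : ℂ) : Prop := ∃ m k : ℤ, z = m * a + k * b * I

/-- Doubly periodic functions. -/
def Per {α : Type} (a b : ℝ) (f : ℂ → α) : Prop := ∀ z, f (z + a) = f z ∧ f (z + b * I) = f z

/-- The open period rectangle centred at `q`. -/
def rect (a b : ℝ) (q : ℂ) : Set ℂ := {z | |z.re - q.re| < a / 2 ∧ |z.im - q.im| < b / 2}

/-- Integral of a real function over the torus. -/
noncomputable def ti (a b : ℝ) (f : ℂ → ℝ) : ℝ := ∫ z in rect a b 0, f z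

/-- The half-open period rectangle with corner 0. -/
def cell (a b : ℝ) : Set ℂ := {z | 0 ≤ z.re ∧ z.re < a ∧ 0 ≤ z.im ∧ z.im < b}

/-! ### The theta function, the Green function, the weight -/

/-- `|F|²` times a Gaussian factor. -/
noncomputable def Sf (a b : ℝ) (F : ℂ → ℂ) (z : ℂ) : ℝ :=
  ‖F z‖ ^ 2 * Real.exp (-(2 * π / (a * b)) * z.im ^ 2 + 2 * π / a * z.im)

/-- The Green function: `-ΔG = δ₀ - 1/(ab)`, singular like `-(1/2π) log |z|`. -/
noncomputable def Gr (a b : ℝ) (F : ℂ → ℂ) (z : ℂ) : ℝ := -(1 / (4 * π)) * Real.log (Sf a b F z)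

/-- The phase `2π (ξ₁ x / a + ξ₂ y / b)`. -/
noncomputable def ph (a b : ℝ) (ξ : ℤ × ℤ) (z : ℂ) : ℝ :=
  2 * π * ((ξ.1 : ℝ) * z.re / a + (ξ.2 : ℝ) * z.im / b)

/-- The eigenvalue of the Fourier mode `ξ`. -/
noncomputable def nu (a b : ℝ) (ξ : ℤ × ℤ) : ℝ :=
  4 * π ^ 2 * (((ξ.1 : ℝ) / a) ^ 2 + ((ξ.2 : ℝ) / b) ^ 2)

/-- `F` is a theta function for the lattice, normalised such that its Green function has mean
zero. -/
structure IsTheta (a b : ℝ) (F : ℂ → ℂ) : Prop where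
  apos : 0 < a
  bpos : 0 < b
  diff : Differentiable ℂ F
  zero : ∀ z, F z = 0 ↔ Lat a b z
  simple : ∀ z, Lat a b z → deriv F z ≠ 0
  per : Per a b (Sf a b F)
  even : ∀ z, Sf a b F (-z) = Sf a b F z
  integ : IntegrableOn (Gr a b F) (rect a b 0)
  mean : ti a b (Gr a b F) = 0
  fcos : ∀ ξ : ℤ × ℤ, ξ ≠ 0 → ti a b (fun z => Gr a b F z * Real.cos (ph a b ξ z)) = 1 / nu a b ξ

/-- The positions are distinct modulo the lattice. -/
def Dist {m : ℕ} (a b : ℝ) (p : Fin m → ℂ) : Prop := ∀ l l', l ≠ l' → ¬ Lat a b (p l - p l')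

/-- The vortex number. -/
def Nv {m : ℕ} (n : Fin m → ℕ) : ℕ := ∑ l, n l

/-- The weight `h = exp (-4π ∑ n_l G(z - p_l))`, smooth, with zeros of order `2 n_l` at `p_l`. -/
noncomputable def hw {m : ℕ} (a b : ℝ) (F : ℂ → ℂ) (p : Fin m → ℂ) (n : Fin m → ℕ) (z : ℂ) : ℝ :=
  ∏ l, (Sf a b F (z - p l)) ^ (n l)

open Classical in
/-- The multiplicity of the vortex at `q` (0 if there is none). -/
noncomputable def nq {m : ℕ} (a b : ℝ) (p : Fin m → ℂ) (n : Fin m → ℕ) (q : ℂ) : ℕ :=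
  ∑ l, if Lat a b (q - p l) then n l else 0

/-- The density of the solution `v`. -/
noncomputable def dE {m : ℕ} (a b : ℝ) (F : ℂ → ℂ) (p : Fin m → ℂ) (n : Fin m → ℕ) (v : ℂ → ℝ)
    (z : ℂ) : ℝ := hw a b F p n z * Real.exp (v z)

/-- `v` is a solution, in integral form, of `-Δv = h e^v - ρ/(ab)`. -/
structure IntSol {m : ℕ} (a b : ℝ) (F : ℂ → ℂ) (p : Fin m → ℂ) (n : Fin m → ℕ) (ρ : ℝ)
    (v : ℂ → ℝ) (c : ℝ) : Prop where
  cont : Continuous v
  per : Per a b v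
  mass : ti a b (dE a b F p n v) = ρ
  eq : ∀ x, v x = c + ti a b (fun y => Gr a b F (x - y) * dE a b F p n v y)

/-- Solutions of the vortex equation in the sense of the problem. -/
structure IsSol {m : ℕ} (a b mW e : ℝ) (p : Fin m → ℂ) (n : Fin m → ℕ) (u : ℂ → ℝ) : Prop where
  per : Per a b u
  smooth : ∀ z, (∀ l, ¬ Lat a b (z - p l)) → ContDiffAt ℝ ∞ u z
  sing : ∀ l, ∃ U : ℂ → ℝ, ContDiffAt ℝ ∞ U (p l) ∧
    ∀ᶠ z in 𝓝[≠] (p l), u z = 2 * n l * Real.log ‖z - p l‖ + U z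
  eq : ∀ φ : ℂ → ℝ, ContDiff ℝ ∞ φ → Per a b φ →
    ∫ z in cell a b, u z * Laplacian.laplacian φ z =
      (∫ z in cell a b, (-2 * mW ^ 2 - 4 * e ^ 2 * Real.exp (u z)) * φ z) +
        4 * π * ∑ l, n l * φ (p l)

/-! ### Local theory -/

/-- The logarithmic potential of the density `E` on the ball of radius `r`. -/
noncomputable def pot (r : ℝ) (E : ℂ → ℝ) (z : ℂ) : ℝ :=
  -(1 / (2 * π)) * ∫ y in ball (0 : ℂ) r, Real.log ‖z - y‖ * E y

/-- The derivative `∂_z` of the potential. -/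
noncomputable def dpot (r : ℝ) (E : ℂ → ℝ) (z : ℂ) : ℂ :=
  -(1 / (4 * π)) * ∫ y in ball (0 : ℂ) r, (E y : ℂ) / (z - y)

/-- The density `E` on the ball of radius `r` is `|z|^(2n) exp (2 Re h - λ|z|²/4 + potential)`:
local form of a solution near a vortex of multiplicity `n`. -/
structure Loc (r : ℝ) (n : ℕ) (lam : ℝ) (h : ℂ → ℂ) (E : ℂ → ℝ) : Prop where
  rpos : 0 < r
  lam0 : 0 ≤ lam
  an : DifferentiableOn ℂ h (ball 0 r)
  cont : Continuous E
  nonneg : ∀ z, 0 ≤ E z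
  rep : ∀ z ∈ ball (0 : ℂ) r,
    E z = ‖z‖ ^ (2 * n) * Real.exp (2 * (h z).re - lam / 4 * ‖z‖ ^ 2 + pot r E z)

/-- The mass in the ball of radius `s`. -/
noncomputable def ms (s : ℝ) (E : ℂ → ℝ) : ℝ := ∫ z in ball (0 : ℂ) s, E z

/-- The integral of `f` against the density `E` over the ball of radius `s`. -/
noncomputable def mo (s : ℝ) (E : ℂ → ℝ) (f : ℂ → ℂ) : ℂ := ∫ z in ball (0 : ℂ) s, f z * (E z : ℂ)

/-- The height of the density outside the blow-up point. -/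
noncomputable def et (h : ℂ → ℂ) : ℝ := Real.exp (2 * (h 0).re)

/-- A blow-up sequence at the origin. -/
structure BU (r : ℝ) (n : ℕ) (H Λ : ℝ) (lam : ℕ → ℝ) (h : ℕ → ℂ → ℂ) (E : ℕ → ℂ → ℝ) : Prop where
  loc : ∀ j, Loc r n (lam j) (h j) (E j)
  lamb : ∀ j, lam j ≤ Λ
  hH : ∀ j, ∀ z ∈ ball (0 : ℂ) r, ‖deriv (h j) z‖ ≤ H
  out : ∀ s, 0 < s → ∃ C, ∀ j, ∀ z ∈ ball (0 : ℂ) r, s ≤ ‖z‖ → E j z ≤ C * et (h j)
  small : Tendsto (fun j => et (h j)) atTop (𝓝 0)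
  mass : Tendsto (fun j => ms r (E j)) atTop (𝓝 (8 * π * (1 + n)))

/-- A rescaled blow-up sequence at a vortex of multiplicity 1 (scale `R j`, original radius `r`)
whose mass is concentrated near the real axis; `eta` is the height of the original sequence. -/
structure PL (r H Λ : ℝ) (R lam eta : ℕ → ℝ) (h : ℕ → ℂ → ℂ) (E : ℕ → ℂ → ℝ) : Prop where
  rpos : 0 < r
  Rpos : ∀ j, 0 < R j
  R0 : Tendsto R atTop (𝓝 0)
  small : ∀ j, 8 * R j < r
  loc : ∀ j, Loc (r / R j) 1 (lam j * R j ^ 2) (h j) (E j)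
  lamb : ∀ j, 0 ≤ lam j ∧ lam j ≤ Λ
  hH : ∀ j, ∀ z ∈ ball (0 : ℂ) (r / R j), ‖deriv (h j) z‖ ≤ H * R j
  mass : Tendsto (fun j => ms (r / R j) (E j)) atTop (𝓝 (16 * π))
  half : ∀ j, ms 1 (E j) = 8 * π
  ang : Tendsto (fun j => ∫ z in ball (0 : ℂ) (r / R j), (z.im / ‖z‖) ^ 2 * E j z) atTop (𝓝 0)
  etapos : ∀ j, 0 < eta j
  etaeq : ∀ j, et (h j) = eta j * R j ^ ((16 * π - ms (r / R j) (E j)) / (2 * π) - 4)
  out : ∀ s, 0 < s → ∃ C, ∀ j, ∀ z ∈ ball (0 : ℂ) (r / R j), s / R j ≤ ‖z‖ →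
    E j z ≤ C * R j ^ 2 * eta j

/-- The mass of `E` in the ball of radius `1/4` around `c`. -/
noncomputable def bm (c : ℂ) (E : ℂ → ℝ) : ℝ := ∫ z in ball c (1 / 4), E z

/-- The centre of mass of `E` in the ball of radius `1/4` around `c`. -/
noncomputable def bc (c : ℂ) (E : ℂ → ℝ) : ℂ := (∫ z in ball c (1 / 4), z * (E z : ℂ)) / bm c E

/-- The second moment of `E` in the ball of radius `1/4` around `c`, about the centre of mass. -/
noncomputable def ba (c : ℂ) (E : ℂ → ℝ) : ℝ := ∫ z in ball c (1 / 4), ‖z - bc c E‖ ^ 2 * E z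

/-- A rescaled sequence which consists of two bubbles near `1` and `-1`; `kap` is the height of
the density away from the bubbles. -/
structure TB (r H Λ : ℝ) (R lam eta kap : ℕ → ℝ) (h : ℕ → ℂ → ℂ) (E : ℕ → ℂ → ℝ) : Prop where
  pl : PL r H Λ R lam eta h E
  kpos : ∀ j, 0 < kap j
  k0 : Tendsto kap atTop (𝓝 0)
  comp : ∀ s, 0 < s → ∃ C, ∀ j, ∀ z ∈ ball (0 : ℂ) 4, s ≤ ‖z - 1‖ → s ≤ ‖z + 1‖ →
    E j z ≤ C * kap j
  tail : ∃ C, ∀ j, ∀ z ∈ ball (0 : ℂ) (r / R j), 2 ≤ ‖z‖ → E j z ≤ C * kap j / ‖z‖ ^ 6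
  eta : ∃ C, ∀ j, eta j ≤ C * kap j * R j ^ 4
  dd : ∃ C, ∀ j, |16 * π - ms (r / R j) (E j)| ≤ C * R j ^ 2
  b1 : Tendsto (fun j => bc 1 (E j)) atTop (𝓝 1)
  b2 : Tendsto (fun j => bc (-1) (E j)) atTop (𝓝 (-1))
  m1 : Tendsto (fun j => (8 * π - bm 1 (E j)) / ba 1 (E j)) atTop (𝓝 0)
  m2 : Tendsto (fun j => (8 * π - bm (-1) (E j)) / ba (-1) (E j)) atTop (𝓝 0)
  a1 : Tendsto (fun j => ba 1 (E j) / kap j) atTop atTop
  a2 : Tendsto (fun j => ba (-1) (E j) / kap j) atTop atTop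
  a10 : Tendsto (fun j => ba 1 (E j)) atTop (𝓝 0)
  a20 : Tendsto (fun j => ba (-1) (E j)) atTop (𝓝 0)
  q1 : Tendsto (fun j => (∫ z in ball (1 : ℂ) (1 / 4), (z - bc 1 (E j)) ^ 2 * (E j z : ℂ)) /
    (ba 1 (E j) : ℂ)) atTop (𝓝 0)
  q2 : Tendsto (fun j => (∫ z in ball (-1 : ℂ) (1 / 4), (z - bc (-1) (E j)) ^ 2 * (E j z : ℂ)) /
    (ba (-1) (E j) : ℂ)) atTop (𝓝 0)

/-! ### Fourier modes and Galerkin approximation -/

/-- Half of the nonzero Fourier modes of order at most `m`. -/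
noncomputable def hm (m : ℕ) : Finset (ℤ × ℤ) :=
  (Finset.Icc (-(m : ℤ)) m ×ˢ Finset.Icc (-(m : ℤ)) m).filter
    fun ξ => 0 < ξ.1 ∨ (ξ.1 = 0 ∧ 0 < ξ.2)

/-- The real Fourier modes: cosine (`false`) and sine (`true`). -/
noncomputable def md (a b : ℝ) (i : (ℤ × ℤ) × Bool) (z : ℂ) : ℝ :=
  if i.2 then Real.sin (ph a b i.1 z) else Real.cos (ph a b i.1 z)

/-- The space of coefficients of trigonometric polynomials of order `m` and mean zero. -/
abbrev Co (m : ℕ) : Type := EuclideanSpace ℝ (hm m × Bool)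

/-- The trigonometric polynomial with coefficients `c`. -/
noncomputable def tp (a b : ℝ) (m : ℕ) (c : Co m) (z : ℂ) : ℝ :=
  ∑ i : hm m × Bool, c i * md a b (i.1.1, i.2) z

/-- The Dirichlet energy `∫ |∇u|²` of the trigonometric polynomial with coefficients `c`. -/
noncomputable def en (a b : ℝ) (m : ℕ) (c : Co m) : ℝ :=
  a * b / 2 * ∑ i : hm m × Bool, nu a b i.1.1 * c i ^ 2

/-- `log ∫ w e^u`. -/
noncomputable def lw (a b : ℝ) (w : ℂ → ℝ) (u : ℂ → ℝ) : ℝ :=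
  Real.log (ti a b (fun z => w z * Real.exp (u z)))

/-- The functional `J / ρ`, where `J = (1/2) ∫ |∇u|² - ρ log ∫ w e^u`. -/
noncomputable def Ifun (a b : ℝ) (w : ℂ → ℝ) (m : ℕ) (ρ : ℝ) (c : Co m) : ℝ :=
  en a b m c / (2 * ρ) - lw a b w (tp a b m c)

/-- The functions `cos (2π (l+1) x / a)`, `sin (2π (l+1) x / a)`, `l < k`. -/
noncomputable def cm (a : ℝ) {k : ℕ} (i : Fin k × Bool) (x : ℝ) : ℝ :=
  if i.2 then Real.sin (2 * π * ((i.1 : ℕ) + 1) * x / a)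
  else Real.cos (2 * π * ((i.1 : ℕ) + 1) * x / a)

/-- The parameter space of the min-max family (dimension `2k`). -/
abbrev Pa (k : ℕ) : Type := EuclideanSpace ℝ (Fin k × Bool)

/-- The moments of the probability density proportional to `w e^u` in the direction `x`. -/
noncomputable def mom (a b : ℝ) (w : ℂ → ℝ) (k : ℕ) (u : ℂ → ℝ) : Pa k :=
  WithLp.toLp 2 fun i => ti a b (fun z => cm a i z.re * (w z * Real.exp (u z))) /
    ti a b (fun z => w z * Real.exp (u z))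

end Pool.Agent.Vx
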