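import Pool.Agent.Work.MP_afe918_an.Bd.B07
import Pool.Agent.Work.MP_afe918_an.Bd.B05
import Pool.Agent.Work.MP_afe918_an.Bd.B06
import Pool.Agent.Work.MP_afe918_an.Bd.B03
import Pool.Agent.Work.MP_afe918_an.Bd.B10
import Pool.Agent.Work.MP_afe918_an.Bd.B04
import Pool.Agent.Work.MP_afe918_an.Bd.B08

/-! # MP_afe918_an, block V: assembly (existence for noncritical parameters) -/

set_option autoImplicit false

open Complex Set Filter Topology MeasureTheory Metric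
open scoped Real ContDiff

namespace Pool.Agent.Vx

theorem fin_V_G : V_G := pr_V_G pr_GSf pr_GPhi (pr_GGr pr_GSf pr_GPhi pr_Ti)

theorem fin_V_tr : V_tr := pr_V_tr pr_Ti

theorem fin_GTr : S_GTr := pr_GTr (pr_GGr pr_GSf pr_GPhi pr_Ti) pr_Ti

theorem fin_V_conv : V_conv := pr_V_conv fin_V_G fin_V_tr fin_GTr

theorem fin_V_Bes : V_Bes := pr_V_Bes pr_V_Pars

theorem fin_V_gfou : V_gfou := pr_V_gfou fin_V_G

theorem fin_V_dual : V_dual := pr_V_dual pr_V_Pars pr_V_orth fin_V_conv fin_V_gfou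

theorem fin_V_exp : V_exp := pr_V_exp fin_V_G

theorem fin_V_gib : V_gib := pr_V_gib fin_V_G fin_V_tr fin_V_conv fin_V_exp

theorem fin_V_imt : V_imt :=
  pr_V_imt fin_V_G fin_V_tr fin_V_conv fin_V_gfou fin_V_dual fin_V_exp fin_V_gib

theorem fin_V_MT : V_MT := pr_V_MT fin_V_imt fin_V_tr

theorem fin_V_Gup : V_Gup := pr_V_Gup fin_V_G

theorem fin_V_jen : V_jen := pr_V_jen fin_V_tr

theorem fin_V_low : V_low := pr_V_low fin_V_imt pr_V_mom fin_V_Gup fin_V_jen fin_V_tr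

theorem fin_V_hw : V_hw := pr_V_hw fin_V_G fin_V_tr

theorem fin_V_cnc : V_cnc := pr_V_cnc pr_V_cov pr_V_max

theorem fin_V_k1 : V_k1 := pr_V_k1 fin_V_tr

theorem fin_V_k2 : V_k2 := pr_V_k2 fin_V_tr pr_V_D

theorem fin_V_k3 : V_k3 := pr_V_k3 fin_V_tr pr_V_D

theorem fin_V_reg : V_reg := pr_V_reg pr_V_kg pr_V_D

theorem fin_V_en : V_en := pr_V_en pr_V_D pr_V_kg fin_V_k1 fin_V_reg

theorem fin_V_mean : V_mean := pr_V_mean pr_V_D fin_V_k2 fin_V_reg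

theorem fin_V_lwl : V_lwl := pr_V_lwl fin_V_k3 fin_V_reg

theorem fin_V_mpos : V_mpos := pr_V_mpos fin_V_k2 fin_V_k3 fin_V_reg

theorem fin_V_TF : V_TF := pr_V_TF fin_V_cnc fin_V_reg fin_V_en fin_V_mean fin_V_lwl fin_V_mpos

theorem fin_V_proj : V_proj := pr_V_proj pr_V_Pars fin_V_Bes pr_V_orth fin_V_tr

theorem fin_V_grad : V_grad := pr_V_grad fin_V_jen pr_V_orth

theorem fin_V_lnk : V_lnk := pr_V_lnk' fin_V_TF fin_V_proj fin_V_MT fin_V_jen pr_V_orth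

theorem fin_V_crit : V_crit := pr_V_crit fin_V_low fin_V_lnk prf_V_MM pr_V_bro fin_V_grad

theorem fin_V_ap : V_ap := pr_V_ap fin_V_Bes fin_V_MT fin_V_jen pr_V_orth

theorem fin_V_ex : V_ex := pr_V_ex fin_V_crit fin_V_ap pr_V_cpt fin_V_hw fin_V_Bes fin_V_gfou
  fin_V_conv pr_V_orth fin_V_jen

/-- Block V is complete: existence for noncritical parameters. -/
theorem fin_Exist : S_Exist := by
  intro a b F m p n hF _ _ k s1 s2 _ h1 h2 h3
  obtain ⟨ρ, hρ, v, c, h⟩ := fin_V_ex a b F hF m p n k s1 s2 h1 h2 h3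
  exact ⟨ρ, hρ.1, hρ.2, v, c, h⟩

end Pool.Agent.Vx
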