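import Pool.Agent.Work.MP_afe918_an.Bd.B10
import Pool.Agent.Work.MP_afe918_an.Bd.B09
import Pool.Agent.Work.MP_afe918_an.Bd.B08
import Pool.Agent.Work.MP_afe918_an.Bd.B02
import Pool.Agent.Work.MP_afe918_an.Bd.B01
import Pool.Agent.Work.MP_afe918_an.Bd.B06
import Pool.Agent.Work.MP_afe918_an.Bd.B05

/-!
# MP_afe918_an, block W: assembly (helper86): two bubbles, no hypotheses left
-/

set_option autoImplicit false

namespace Pool.Agent.Vx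

theorem W_PotD : S_PotD := pr_PotD pr_Riesz pr_LogI
theorem W_Far : S_Far := pr_Far
theorem W_Rec0 : S_Rec0 := pr_Rec0 W_Far pr_LogI
theorem W_Rec1 : S_Rec1 := pr_Rec1 W_Far pr_LogI
theorem W_Id : S_Id := pr_Id W_PotD pr_Riesz
theorem W_RIp : S_RIp := pr_RIp W_Id pr_Cut pr_Riesz
theorem W_Small : S_Small := pr_Small pr_Riesz pr_LogI pr_Scale
theorem W_Poh : S_Poh := pr_Poh W_Id pr_Cut
theorem W_Quant : S_Quant := pr_Quant W_Poh
theorem W_BUf : S_BUf := pr_BUf pr_A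
theorem W_n0 : S_n0 := pr_n0 W_RIp pr_A W_BUf

theorem W_Loc : S_WLoc := pr_WLoc W_Small W_Rec0 W_Rec1 pr_Riesz
theorem W_Van : S_WVan := pr_WVan W_Loc
theorem W_No0 : S_WNo0 := pr_WNo0 W_Rec0 W_Quant
theorem W_Q : S_WQ := pr_WQ W_Rec1 W_Quant
theorem W_Bal : S_WBal := pr_WBal W_Id pr_Cut
theorem W_Two : S_WTwo := pr_WTwo pr_Ext pr_WSub W_Van W_No0 W_Q W_Bal
theorem W_UB : S_WUB := pr_WUB W_Loc
theorem W_Cmp : S_WCmp := pr_WCmp W_UB pr_LogI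
theorem W_Kap : S_WKap := pr_WKap W_Cmp W_UB
theorem W_Scale : S_WScale := pr_WScale W_UB W_Rec1 W_Small
theorem W_Tail1 : S_WTail1 := pr_WTail1 W_Scale pr_WEta W_Kap W_UB pr_LogI
theorem W_Mom : S_WMom := pr_WMom W_Tail1 W_Kap
theorem W_RI : S_WRI := pr_WRI W_RIp
theorem W_D : S_WD := pr_WD W_RI pr_WTay W_Mom W_Tail1 W_Kap
theorem W_Tail2 : S_WTail2 := pr_WTail2 W_D W_Mom pr_WEta W_Kap W_Scale pr_LogI
theorem W_PX : S_WPX := pr_WPX W_Two W_UB W_Kap W_Tail2 W_D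
theorem W_BU : S_WBU := pr_WBU W_Rec1 pr_Riesz pr_LogI
theorem W_TB : S_WTB := pr_WTB W_BU W_n0 pr_A W_BUf
theorem W_PLTB : S_PLTB := pr_PLTB W_PX W_TB

theorem W_Ang : S_WAng := pr_WAng pr_WM3 pr_LogI
theorem W_LamT : S_WLamT := pr_WLamT W_Ang pr_WTay
theorem W_LamN : S_WLamN := pr_WLamN pr_WTay pr_WThird
theorem W_Lam : S_WLam := pr_WLam W_LamT W_LamN pr_WTay
theorem W_Exp : S_WExp := pr_WExp pr_WThird
theorem W_S1 : S_WS1 := pr_WS1 W_RI pr_WM3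
theorem W_Match : S_WMatch := pr_WMatch W_Exp W_S1
theorem W_Cf : S_WCf := pr_WCf pr_WTay
theorem W_Qf : S_WQf := pr_WQf pr_WTay pr_WM3
theorem W_TBfin : S_TBfin :=
  pr_TBfin W_RI W_Cf pr_WInt pr_WAlg W_Qf W_Lam W_Exp W_Match pr_WM3 pr_WTay

end Pool.Agent.Vx
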